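import Pool.Agent.Helper11.PC.Defs

/-! # Project PC (MP_1f931d_al), packet TAM -/

namespace Pool.Agent.Helper37.PC

universe u v

open MonoidAlgebra Pool.Agent.Helper28.Para Pool.Agent.Helper11.PC
open scoped Pointwise

/-- products of partially well ordered sets in an ordered group -/
theorem hsa {G : Type u} [Group G] [LinearOrder G] [MulLeftStrictMono G] [MulRightStrictMono G]
    {s t : Set G} (hs : s.IsPWO) (ht : t.IsPWO) :
    (s * t).IsPWO ∧ ∀ x : G, {a | a ∈ s ∧ a⁻¹ * x ∈ t}.Finite := by
  haveI : MulLeftMono G := mulLeftMono_of_mulLeftStrictMono G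
  haveI : MulRightMono G := mulRightMono_of_mulRightStrictMono G
  constructor
  · have h1 : s * t = (fun z : G × G => z.1 * z.2) '' (s ×ˢ t) := by
      rw [Set.image_mul_prod]
    rw [h1]
    refine (hs.prod ht).image_of_monotoneOn ?_
    intro a _ b _ hab
    exact mul_le_mul' hab.1 hab.2
  · intro x
    by_contra hinf
    have hinf' : {a | a ∈ s ∧ a⁻¹ * x ∈ t}.Infinite := hinf
    let e := hinf'.natEmbedding
    have he : Function.Injective (fun n => (e n : G)) := fun a b h => e.injective (Subtype.ext h)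
    obtain ⟨φ, hφ⟩ := hs.exists_monotone_subseq (f := fun n => (e n : G)) (fun n => (e n).2.1)
    obtain ⟨ψ, hψ⟩ := ht.exists_monotone_subseq (f := fun n => (e (φ n) : G)⁻¹ * x)
      (fun n => (e (φ n)).2.2)
    have h01 : ψ 0 < ψ 1 := ψ.lt_iff_lt.2 Nat.zero_lt_one
    have h1 : (e (φ (ψ 0)) : G) ≤ e (φ (ψ 1)) := hφ h01.le
    have h2 : (e (φ (ψ 0)) : G) ≠ e (φ (ψ 1)) := by
      intro h
      have h3 := φ.injective (he h)
      exact h01.ne h3
    have h3 : (e (φ (ψ 0)) : G) < e (φ (ψ 1)) := lt_of_le_of_ne h1 h2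
    have h4 : (e (φ (ψ 0)) : G)⁻¹ * x ≤ (e (φ (ψ 1)) : G)⁻¹ * x := hψ (Nat.zero_le 1)
    have h5 : (e (φ (ψ 0)) : G)⁻¹ ≤ (e (φ (ψ 1)) : G)⁻¹ := le_of_mul_le_mul_right' h4
    exact absurd h3 (not_lt.2 (inv_le_inv_iff.1 h5))

/-- the finitely many pairs over a point -/
theorem pairs_finite {G : Type u} [Group G] {N : Type v} [Group N] [LinearOrder N]
    [MulLeftStrictMono N] [MulRightStrictMono N]
    (p : G →* N) {f g : G → ℚ} (hft : Tame p f) (hgt : Tame p g) (y : N) :
    {z : G × G | f z.1 ≠ 0 ∧ g z.2 ≠ 0 ∧ p z.1 * p z.2 = y}.Finite := by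
  have hA := (hsa hft.pwo hgt.pwo).2 y
  refine Set.Finite.subset (hA.biUnion
    (t := fun α => {a | p a = α ∧ f a ≠ 0} ×ˢ {b | p b = α⁻¹ * y ∧ g b ≠ 0})
    (fun α _ => (hft.fib α).prod (hgt.fib (α⁻¹ * y)))) ?_
  rintro ⟨a, b⟩ ⟨ha, hb, hab⟩
  simp only [Set.mem_iUnion]
  have h1 : p b = (p a)⁻¹ * y := by rw [← hab]; group
  refine ⟨p a, ⟨⟨a, ha, rfl⟩, ⟨b, hb, h1⟩⟩, ⟨rfl, ha⟩, ⟨h1, hb⟩⟩

/-- a nonzero value of the convolution comes from a pair -/
theorem conv_ne {G : Type u} [Group G] {f g : G → ℚ} {x : G} (h : conv f g x ≠ 0) :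
    ∃ a, f a ≠ 0 ∧ g (a⁻¹ * x) ≠ 0 := by
  by_contra hcon
  push Not at hcon
  apply h
  unfold conv
  rw [← finsum_zero (α := G)]
  refine finsum_congr fun a => ?_
  by_cases ha : f a = 0
  · rw [ha, zero_mul]
  · rw [hcon a ha, mul_zero]

theorem push_eq {G : Type u} {N : Type v} [DecidableEq N] (p : G → N) (f : G → ℚ) (y : N) :
    push p f y = ∑ᶠ x, if p x = y then f x else 0 := by
  unfold push
  rw [finsum_subtype_eq_finsum_cond]
  refine finsum_congr fun x => ?_
  rw [finsum_eq_if]

/-- packet TAM -/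
theorem tam {G : Type u} [Group G] [LinearOrder G] [MulLeftStrictMono G] [MulRightStrictMono G]
    {N : Type v} [Group N] [LinearOrder N] [MulLeftStrictMono N] [MulRightStrictMono N]
    (p : G →* N) (hp : Monotone p) {f g : G → ℚ} (hf : (Function.support f).IsPWO)
    (hg : (Function.support g).IsPWO) (hft : Tame p f) (hgt : Tame p g) :
    Tame p (conv f g) ∧ push p (conv f g) = conv (push p f) (push p g) := by
  classical
  refine ⟨⟨fun y => ?_, ?_⟩, ?_⟩
  · refine Set.Finite.subset ((pairs_finite p hft hgt y).image (fun z => z.1 * z.2)) ?_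
    rintro x ⟨hx, hx0⟩
    obtain ⟨a, ha, hb⟩ := conv_ne hx0
    refine ⟨(a, a⁻¹ * x), ⟨ha, hb, ?_⟩, ?_⟩
    · rw [← map_mul, mul_inv_cancel_left, hx]
    · simp
  · refine (hsa hft.pwo hgt.pwo).1.mono ?_
    rintro _ ⟨x, hx, rfl⟩
    obtain ⟨a, ha, hb⟩ := conv_ne hx
    refine Set.mem_mul.2 ⟨p a, ⟨a, ha, rfl⟩, p (a⁻¹ * x), ⟨a⁻¹ * x, hb, rfl⟩, ?_⟩
    rw [← map_mul, mul_inv_cancel_left]
  · funext y
    set U : G × G → ℚ := fun z => if p z.1 * p z.2 = y then f z.1 * g z.2 else 0 with hU
    have hpf := pairs_finite p hft hgt y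
    have hUf : (Function.support U).Finite := by
      refine hpf.subset ?_
      intro z hz
      simp only [hU, Function.mem_support, ne_eq, ite_eq_right_iff, mul_eq_zero, not_or,
        Classical.not_imp] at hz
      exact ⟨hz.2.1, hz.2.2, hz.1⟩
    have hL : push p (conv f g) y = ∑ᶠ z, U z := by
      rw [push_eq]
      let e : G × G ≃ G × G :=
        { toFun := fun w => (w.2, w.2⁻¹ * w.1)
          invFun := fun z => (z.1 * z.2, z.1)
          left_inv := fun w => by simp
          right_inv := fun z => by simp }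
      have h1 : ∑ᶠ z, U z = ∑ᶠ w, U (e w) := (finsum_comp_equiv e).symm
      have h2 : (Function.support fun w => U (e w)).Finite :=
        Set.Finite.subset (hUf.preimage e.injective.injOn) (fun w hw => hw)
      rw [h1, finsum_curry (fun w => U (e w)) h2]
      refine finsum_congr fun x => ?_
      have h3 : ∀ a, U (e (x, a)) = if p x = y then f a * g (a⁻¹ * x) else 0 := by
        intro a
        have h4 : p a * p (a⁻¹ * x) = p x := by rw [← map_mul, mul_inv_cancel_left]
        simp only [hU, e, Equiv.coe_fn_mk, h4]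
      rw [finsum_congr h3]
      split_ifs
      · rfl
      · rw [finsum_zero]
    have hR : conv (push p f) (push p g) y = ∑ᶠ z, U z := by
      set V : N × (G × G) → ℚ := fun w =>
        (if p w.2.1 = w.1 then f w.2.1 else 0) * (if p w.2.2 = w.1⁻¹ * y then g w.2.2 else 0)
        with hV
      have hVf : (Function.support V).Finite := by
        refine (hpf.image (fun z => (p z.1, z))).subset ?_
        rintro ⟨α, a, b⟩ hw
        simp only [hV, Function.mem_support, ne_eq, mul_eq_zero, not_or, ite_eq_right_iff,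
          Classical.not_imp] at hw
        obtain ⟨⟨h1, h2⟩, h3, h4⟩ := hw
        refine ⟨(a, b), ⟨h2, h4, ?_⟩, ?_⟩
        · rw [h3, h1]; group
        · simp only [h1]
      have h1 : conv (push p f) (push p g) y = ∑ᶠ α, ∑ᶠ z : G × G, V (α, z) := by
        unfold conv
        refine finsum_congr fun α => ?_
        rw [push_eq, push_eq]
        have hfa : (Function.support fun a => if p a = α then f a else 0).Finite := by
          refine (hft.fib α).subset ?_
          intro a ha
          simp only [Function.mem_support, ne_eq, ite_eq_right_iff, Classical.not_imp] at ha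
          exact ha
        have hgb : (Function.support fun b => if p b = α⁻¹ * y then g b else 0).Finite := by
          refine (hgt.fib (α⁻¹ * y)).subset ?_
          intro b hb
          simp only [Function.mem_support, ne_eq, ite_eq_right_iff, Classical.not_imp] at hb
          exact hb
        have hVa : (Function.support fun z : G × G => V (α, z)).Finite := by
          refine (hfa.prod hgb).subset ?_
          rintro ⟨a, b⟩ hz
          simp only [hV, Function.mem_support, ne_eq, mul_eq_zero, not_or] at hz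
          exact ⟨hz.1, hz.2⟩
        rw [finsum_curry _ hVa, finsum_mul]
        refine finsum_congr fun a => ?_
        rw [mul_finsum]
      rw [h1, ← finsum_curry V hVf]
      have h2 : ∑ᶠ w, V w = ∑ᶠ w : (G × G) × N, V (Equiv.prodComm _ _ w) :=
        (finsum_comp_equiv (Equiv.prodComm (G × G) N)).symm
      have h3 : (Function.support fun w : (G × G) × N => V (Equiv.prodComm _ _ w)).Finite :=
        Set.Finite.subset (hVf.preimage (Equiv.prodComm (G × G) N).injective.injOn)
          (fun w hw => hw)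
      rw [h2, finsum_curry _ h3]
      refine finsum_congr fun z => ?_
      rw [finsum_eq_single _ (p z.1)]
      · simp only [hV, hU, Equiv.prodComm_apply, Prod.swap_prod_mk, if_true]
        by_cases h5 : p z.1 * p z.2 = y
        · have h6 : p z.2 = (p z.1)⁻¹ * y := by rw [← h5]; group
          rw [if_pos h5, if_pos h6]
        · have h6 : p z.2 ≠ (p z.1)⁻¹ * y := fun h => h5 (by rw [h]; group)
          rw [if_neg h5, if_neg h6, mul_zero]
      · intro α hα
        simp only [hV, Equiv.prodComm_apply, Prod.swap_prod_mk]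
        rw [if_neg (fun h => hα h.symm), zero_mul]
    rw [hL, hR]

end Pool.Agent.Helper37.PC
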